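import Pool.Agent.H28.RC.Targets2

/-!
Module CM3: all Euler factors agree.
-/

set_option autoImplicit false

open NumberField NumberField.InfinitePlace Complex

namespace Pool.Agent.H56.RC

open Pool.Agent.H28.RC Pool.Agent.H25.HK Pool.Agent.H25

/-- module CM3 -/
theorem pf_CM3 : T_SEP → T_CM1 → T_SPE → T_EIG → T_TRX → T_CM3 := by
  intro hSEP hCM1 hSPE hEIG hTRX R D p k hk
  obtain ⟨M, hM, hGM, hMi, hz⟩ := hCM1 R D
  -- the parameters of the characters
  choose β hβ1 hβ2 using fun i => hSPE (FF R (D.H i)) (D.χ i) D.m D.m_pos (D.val i) p p.2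
  -- the eigenvalues of Frobenius
  have hG : 1 ≤ Nat.card (R.K ≃ₐ[ℚ] R.K) := Nat.card_pos
  obtain ⟨α, hα1, _, hα3⟩ := hEIG R.V (R.fr p) (Nat.card (R.K ≃ₐ[ℚ] R.K)) hG ((hTRX R).1 p)
  set A : Type := (Σ i : Fin D.N, Fin (Module.finrank ℚ (FF R (D.H i)))) ⊕
    Fin (Module.finrank ℂ R.V) with hA
  set b : A → ℂ := Sum.elim (fun x => β x.1 x.2) α with hb
  set e : A → ℂ := Sum.elim (fun x => (D.n x.1 : ℂ)) fun _ => -1 with he
  have hb1 : ∀ l, b l = 0 ∨ b l ^ M = 1 := by
    rintro (x | x)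
    · rcases hβ1 x.1 x.2 with h | h
      · left
        exact h
      · right
        obtain ⟨t, ht⟩ := hMi x.1
        have h4 : b (Sum.inl x) = β x.1 x.2 := rfl
        rw [h4, ht, pow_mul, h, one_pow]
    · rcases hα1 x with h | h
      · left
        exact h
      · right
        obtain ⟨t, ht⟩ := hGM
        have h4 : b (Sum.inr x) = α x := rfl
        rw [h4, ht, pow_mul, h, one_pow]
  have hsum : ∀ j : ℕ, 1 ≤ j → ∑ l, e l * b l ^ j =
      ∑ i, (D.n i : ℂ) * spc (D.χ i) p j - LinearMap.trace ℂ R.V (R.fr p ^ j) := by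
    intro j hj
    rw [Fintype.sum_sum_type, Fintype.sum_sigma, hα3 j hj, sub_eq_add_neg,
      ← Finset.sum_neg_distrib]
    congr 1
    · refine Finset.sum_congr rfl fun i _ => ?_
      rw [hβ2 i j hj, Finset.mul_sum]
      rfl
    · refine Finset.sum_congr rfl fun i _ => ?_
      simp [hb, he]
  have h := hSEP M hM A b e hb1 (fun ζ hζ => ?_) k hk
  · rw [hsum k hk] at h
    exact (sub_eq_zero.1 h).symm
  · obtain ⟨M', h1, h2, h3⟩ := hz p ζ hζ
    refine ⟨M', h1, h2, fun j hj => ?_⟩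
    rw [← h3 j hj]
    refine Finset.sum_congr rfl fun a ha => ?_
    have ha1 : 1 ≤ a := by
      by_contra h
      have h4 : a = 0 := by omega
      rw [h4] at ha
      unfold un at ha
      rw [Finset.mem_filter] at ha
      have h5 := ha.2
      rw [Nat.coprime_zero_left] at h5
      omega
    rw [hsum (a * j) (Nat.mul_pos ha1 hj)]

end Pool.Agent.H56.RC
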