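import Pool.Agent.H28.RC.Targets2

/-!
Module SPE: the power sums of the Euler factor of a ray class character as sums of powers of roots
of unity.
-/

set_option autoImplicit false

open NumberField NumberField.InfinitePlace Complex

namespace Pool.Agent.H56.RC

open Pool.Agent.H28.RC Pool.Agent.H25.HK Pool.Agent.H25

/-- power sums of the roots of unity -/
lemma sum_unity' {f : ℕ} {ζ : ℂ} (hζ : IsPrimitiveRoot ζ f) (k : ℕ) :
    ∑ i : Fin f, (ζ ^ (i : ℕ)) ^ k = if f ∣ k then (f : ℂ) else 0 := by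
  have h1 : ∀ i : Fin f, (ζ ^ (i : ℕ)) ^ k = (ζ ^ k) ^ (i : ℕ) := fun i => by
    rw [← pow_mul, ← pow_mul, mul_comm]
  simp_rw [h1]
  rw [Fin.sum_univ_eq_sum_range (fun i => (ζ ^ k) ^ i) f]
  split_ifs with h
  · rw [(hζ.pow_eq_one_iff_dvd k).2 h]
    simp
  · have h2 : ζ ^ k ≠ 1 := fun h' => h ((hζ.pow_eq_one_iff_dvd k).1 h')
    rw [geom_sum_eq h2, ← pow_mul, mul_comm k f, pow_mul, hζ.pow_eq_one, one_pow, sub_self,
      zero_div]

/-- the `f`-th roots of a root of unity (or of `0`) -/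
lemma roots_one (f m : ℕ) (hf : 0 < f) (c : ℂ) (hc : c = 0 ∨ c ^ m = 1) :
    ∃ β : Fin f → ℂ, (∀ i, β i = 0 ∨ β i ^ (f * m) = 1) ∧ ∀ k : ℕ, 1 ≤ k →
      ∑ i, β i ^ k = if f ∣ k then (f : ℂ) * c ^ (k / f) else 0 := by
  rcases hc with rfl | hc
  · refine ⟨fun _ => 0, fun _ => Or.inl rfl, fun k hk => ?_⟩
    rw [Finset.sum_eq_zero fun i _ => zero_pow (by omega)]
    split_ifs with h
    · obtain ⟨j, rfl⟩ := h
      rw [Nat.mul_div_cancel_left _ hf, zero_pow, mul_zero]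
      rintro rfl
      omega
    · rfl
  · have hζ := Complex.isPrimitiveRoot_exp f hf.ne'
    set ζ : ℂ := Complex.exp (2 * Real.pi * Complex.I / f) with hz
    obtain ⟨b, hb⟩ := IsAlgClosed.exists_pow_nat_eq c hf
    refine ⟨fun i => ζ ^ (i : ℕ) * b, fun i => Or.inr ?_, fun k hk => ?_⟩
    · rw [pow_mul, mul_pow, hb, ← pow_mul, mul_comm (i : ℕ) f, pow_mul, hζ.pow_eq_one, one_pow,
        one_mul, hc]
    · have h1 : ∑ i : Fin f, (ζ ^ (i : ℕ) * b) ^ k = (∑ i : Fin f, (ζ ^ (i : ℕ)) ^ k) * b ^ k := by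
        rw [Finset.sum_mul]
        exact Finset.sum_congr rfl fun i _ => mul_pow _ _ _
      rw [h1, sum_unity' hζ]
      split_ifs with h
      · obtain ⟨j, rfl⟩ := h
        rw [Nat.mul_div_cancel_left _ hf, pow_mul, hb]
      · rw [zero_mul]

/-- the local parameters, twisted -/
lemma local_params' {ι : Type*} (S : Finset ι) (f : ι → ℕ) (hf : ∀ P ∈ S, 0 < f P) (n m : ℕ)
    (c : ι → ℂ) (hc : ∀ P ∈ S, c P = 0 ∨ c P ^ m = 1) (hn : ∑ P ∈ S, f P ≤ n) :
    ∃ α : Fin n → ℂ, (∀ j, α j = 0 ∨ α j ^ (m * n.factorial) = 1) ∧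
      ∀ k : ℕ, 1 ≤ k →
        ∑ j, α j ^ k = ∑ P ∈ S, if f P ∣ k then (f P : ℂ) * c P ^ (k / f P) else 0 := by
  classical
  choose β hβ1 hβ2 using fun P : S => roots_one (f P) m (hf P P.2) (c P) (hc P P.2)
  have hcard : Fintype.card ((Σ P : S, Fin (f P)) ⊕ Fin (n - ∑ P ∈ S, f P)) = n := by
    rw [Fintype.card_sum, Fintype.card_sigma, Fintype.card_fin]
    simp only [Fintype.card_fin]
    rw [Finset.sum_coe_sort S f]
    omega
  have e : Fin n ≃ (Σ P : S, Fin (f P)) ⊕ Fin (n - ∑ P ∈ S, f P) :=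
    (Fintype.equivFinOfCardEq hcard).symm
  have hfn : ∀ P : S, f P ∣ n.factorial := fun P => by
    refine Nat.dvd_factorial (hf P P.2) (le_trans ?_ hn)
    exact Finset.single_le_sum (f := f) (fun _ _ => Nat.zero_le _) P.2
  set γ : (Σ P : S, Fin (f P)) ⊕ Fin (n - ∑ P ∈ S, f P) → ℂ :=
    Sum.elim (fun x => β x.1 x.2) fun _ => 0 with hγ
  have hb : ∀ x, γ x = 0 ∨ γ x ^ (m * n.factorial) = 1 := by
    rintro (x | x)
    · rcases hβ1 x.1 x.2 with h | h
      · left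
        simpa [hγ] using h
      · right
        obtain ⟨t, ht⟩ := hfn x.1
        have h3 : m * n.factorial = f x.1 * m * t := by rw [ht]; ring
        have h4 : γ (Sum.inl x) = β x.1 x.2 := rfl
        rw [h4, h3, pow_mul, h, one_pow]
    · left
      simp [hγ]
  refine ⟨fun j => γ (e j), fun j => hb _, fun k hk => ?_⟩
  rw [e.sum_comp fun x => γ x ^ k, Fintype.sum_sum_type, Fintype.sum_sigma]
  simp only [hγ, Sum.elim_inl, Sum.elim_inr, zero_pow (by omega : k ≠ 0), Finset.sum_const_zero,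
    add_zero]
  rw [← Finset.sum_coe_sort S fun P => if f P ∣ k then (f P : ℂ) * c P ^ (k / f P) else 0]
  exact Finset.sum_congr rfl fun P _ => hβ2 P k hk

/-- module SPE -/
theorem pf_SPE : T_SPE := by
  intro K _ _ χ m hm hψ p hp
  classical
  have hp0 : (Ideal.span {(p : ℤ)}) ≠ ⊥ := by
    rw [Ne, Ideal.span_singleton_eq_bot]
    exact_mod_cast hp.ne_zero
  have hpp : (Ideal.span {(p : ℤ)}).IsPrime := by
    rw [Ideal.span_singleton_prime (by exact_mod_cast hp.ne_zero)]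
    exact Nat.prime_iff_prime_int.1 hp
  have hpm : (Ideal.span {(p : ℤ)}).IsMaximal := hpp.isMaximal hp0
  have hfin : (Ideal.primesOver (Ideal.span {(p : ℤ)}) (𝓞 K)).Finite :=
    IsDedekindDomain.primesOver_finite _ _
  have hpos : ∀ P ∈ hfin.toFinset, 0 < P.inertiaDeg ℤ := by
    intro P hP
    rw [Set.Finite.mem_toFinset] at hP
    have h1 := hP.1
    have h2 := hP.2
    exact Ideal.inertiaDeg_pos P ℤ
  have hsum : ∑ P ∈ hfin.toFinset, P.inertiaDeg ℤ ≤ Module.finrank ℚ K := by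
    let _ : Fintype (Ideal.primesOver (Ideal.span {(p : ℤ)}) (𝓞 K)) := hfin.fintype
    have h1 := Ideal.sum_ramification_inertia_eq_finrank (Ideal.span {(p : ℤ)}) (𝓞 K)
    rw [NumberField.RingOfIntegers.rank] at h1
    rw [← h1, Finset.sum_subtype hfin.toFinset
      (p := fun P => P ∈ Ideal.primesOver (Ideal.span {(p : ℤ)}) (𝓞 K))
      (fun x => Set.Finite.mem_toFinset _) fun P => P.inertiaDeg ℤ]
    refine Finset.sum_le_sum fun q _ => ?_
    have h2 : q.1.IsPrime := q.2.1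
    exact Nat.le_mul_of_pos_left _ (Ideal.ramificationIdx_pos q.1 ℤ)
  obtain ⟨α, h1, h2⟩ := local_params' hfin.toFinset (fun P => P.inertiaDeg ℤ) hpos
    (Module.finrank ℚ K) m χ.ψ (fun P _ => hψ P) hsum
  refine ⟨α, h1, fun k hk => ?_⟩
  rw [h2 k hk]
  unfold spc
  rw [finsum_mem_eq_finite_toFinset_sum _ hfin]

end Pool.Agent.H56.RC
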